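import Pool.Agent.Q142.DP.Core3
set_option autoImplicit false
set_option linter.unusedSectionVars false
open Filter Topology Set MeasureTheory Metric
open scoped ENNReal NNReal
namespace Q142DP

/-- the measure on `ℕ ⊕ ℝ`: atoms of mass one, and Lebesgue measure on `(0,1]` -/
noncomputable def nu : Measure (ℕ ⊕ ℝ) :=
  (Measure.count : Measure ℕ).map Sum.inl + ((volume : Measure ℝ).restrict (Ioc 0 1)).map Sum.inr

lemma emb_l : MeasurableEmbedding (Sum.inl : ℕ → ℕ ⊕ ℝ) :=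
  ⟨Sum.inl_injective, measurable_inl, fun _ hs => measurableSet_inl_image.2 hs⟩

lemma emb_r : MeasurableEmbedding (Sum.inr : ℝ → ℕ ⊕ ℝ) :=
  ⟨Sum.inr_injective, measurable_inr, fun _ hs => measurableSet_inr_image.2 hs⟩

lemma ae_nu {p : ℕ ⊕ ℝ → Prop} : (∀ᵐ x ∂nu, p x) ↔
    (∀ n, p (Sum.inl n)) ∧ ∀ᵐ x ∂((volume : Measure ℝ).restrict (Ioc 0 1)), p (Sum.inr x) := by
  unfold nu
  rw [ae_add_measure_iff, emb_l.ae_map_iff, emb_r.ae_map_iff]
  have h : (∀ᵐ x ∂(Measure.count : Measure ℕ), p (Sum.inl x)) ↔ ∀ n, p (Sum.inl n) := by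
    rw [ae_iff, Measure.count_eq_zero_iff]
    constructor
    · intro h n
      by_contra hn
      have : n ∈ {a | ¬ p (Sum.inl a)} := hn
      rw [h] at this
      exact this
    · intro h
      ext n
      simp [h n]
  rw [h]

/-- the nonatomic part -/
def Cs : Set (ℕ ⊕ ℝ) := range Sum.inr

lemma meas_Cs : MeasurableSet Cs := measurableSet_range_inr

lemma nu_Cs : nu Cs = 1 := by
  unfold nu Cs
  rw [Measure.add_apply, emb_l.map_apply, emb_r.map_apply]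
  have h1 : (Sum.inl : ℕ → ℕ ⊕ ℝ) ⁻¹' range Sum.inr = ∅ := by ext; simp
  have h2 : (Sum.inr : ℝ → ℕ ⊕ ℝ) ⁻¹' range Sum.inr = univ := by ext; simp
  rw [h1, h2]
  simp

lemma nu_Cs_ne : nu Cs ≠ ∞ := by rw [nu_Cs]; exact ENNReal.one_ne_top

/-- the `k`-th atom -/
def at' (k : ℕ) : Set (ℕ ⊕ ℝ) := Sum.inl '' {k}

lemma meas_at (k : ℕ) : MeasurableSet (at' k) := measurableSet_inl_image.2 (measurableSet_singleton k)

lemma nu_at (k : ℕ) : nu (at' k) = 1 := by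
  unfold nu at'
  rw [Measure.add_apply, emb_l.map_apply, emb_r.map_apply]
  have h1 : (Sum.inl : ℕ → ℕ ⊕ ℝ) ⁻¹' (Sum.inl '' {k}) = {k} := by ext; simp
  have h2 : (Sum.inr : ℝ → ℕ ⊕ ℝ) ⁻¹' (Sum.inl '' {k}) = ∅ := by ext; simp
  rw [h1, h2]
  simp

lemma nu_at_ne (k : ℕ) : nu (at' k) ≠ ∞ := by rw [nu_at]; exact ENNReal.one_ne_top

noncomputable abbrev E1 := Lp ℂ 1 nu
noncomputable abbrev E2 := Lp ℂ 2 nu

lemma norm_formula (f : E1) : Summable (fun n => ‖f (Sum.inl n)‖) ∧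
    ‖f‖ = (∑' n, ‖f (Sum.inl n)‖) + ∫ x in Ioc (0:ℝ) 1, ‖f (Sum.inr x)‖ := by
  have hi : Integrable (fun x => ‖f x‖) nu := (L1.integrable_coeFn f).norm
  have hn := L1.norm_eq_integral_norm f
  unfold nu at hi
  obtain ⟨h1, h2⟩ := integrable_add_measure.1 hi
  have h1' : Integrable (fun n : ℕ => ‖f (Sum.inl n)‖) Measure.count :=
    (emb_l.integrable_map_iff).1 h1
  have hs : Summable fun n : ℕ => ‖f (Sum.inl n)‖ := by
    have := integrable_count_iff.1 h1'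
    simpa using this
  refine ⟨hs, ?_⟩
  rw [hn]
  have e : ∫ x, ‖f x‖ ∂nu = ∫ x, ‖f x‖ ∂((Measure.count : Measure ℕ).map Sum.inl) +
      ∫ x, ‖f x‖ ∂(((volume : Measure ℝ).restrict (Ioc 0 1)).map Sum.inr) := by
    exact integral_add_measure h1 h2
  rw [e, emb_l.integral_map, emb_r.integral_map, integral_countable h1']
  simp

lemma norm_le_inl (f : E1) (k : ℕ) : ‖f (Sum.inl k)‖ ≤ ‖f‖ := by
  obtain ⟨h1, h2⟩ := norm_formula f
  have h3 : 0 ≤ ∫ x in Ioc (0:ℝ) 1, ‖f (Sum.inr x)‖ := integral_nonneg fun _ => norm_nonneg _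
  have h4 := h1.le_tsum k fun _ _ => norm_nonneg _
  linarith

/-- evaluation at an atom -/
noncomputable def evk (k : ℕ) : E1 →L[ℂ] ℂ :=
  LinearMap.mkContinuous
    { toFun := fun f => f (Sum.inl k)
      map_add' := fun f g => (ae_nu.1 (Lp.coeFn_add f g)).1 k
      map_smul' := fun c f => (ae_nu.1 (Lp.coeFn_smul c f)).1 k } 1 (fun f => by
      rw [one_mul]; exact norm_le_inl f k)

lemma evk_apply (k : ℕ) (f : E1) : evk k f = f (Sum.inl k) := rfl

/-- unit mass at an atom -/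
noncomputable def dk (k : ℕ) : E1 := indicatorConstLp 1 (meas_at k) (nu_at_ne k) (1 : ℂ)

lemma dk_inl (k l : ℕ) : dk k (Sum.inl l) = if l = k then 1 else 0 := by
  have h := (ae_nu.1 (indicatorConstLp_coeFn (p := 1) (hs := meas_at k) (hμs := nu_at_ne k)
    (c := (1:ℂ)))).1 l
  unfold dk
  rw [h]
  unfold at'
  by_cases hl : l = k
  · subst hl; simp
  · simp [hl]

lemma dk_inr (k : ℕ) : ∀ᵐ x ∂((volume : Measure ℝ).restrict (Ioc 0 1)), dk k (Sum.inr x) = 0 := by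
  have h := (ae_nu.1 (indicatorConstLp_coeFn (p := 1) (hs := meas_at k) (hμs := nu_at_ne k)
    (c := (1:ℂ)))).2
  filter_upwards [h] with x hx
  unfold dk
  rw [hx]
  unfold at'
  simp

lemma ev_dk (k l : ℕ) : evk k (dk l) = if k = l then 1 else 0 := dk_inl l k

lemma norm_dk (k : ℕ) : ‖dk k‖ ≤ 1 := by
  unfold dk
  rw [norm_indicatorConstLp one_ne_zero ENNReal.one_ne_top]
  simp [measureReal_def, nu_at]

lemma summ_dk (f : E1) : Summable fun k => evk k f • dk k := by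
  refine Summable.of_norm_bounded (norm_formula f).1 fun k => ?_
  rw [norm_smul]
  exact mul_le_of_le_one_right (norm_nonneg _) (norm_dk k)

/-- removing the atoms -/
lemma rem_inl (f : E1) (l : ℕ) : (f - ∑' k, evk k f • dk k : E1) (Sum.inl l) = 0 := by
  rw [← evk_apply, map_sub, (evk l).map_tsum (summ_dk f), tsum_eq_single l]
  · rw [map_smul, ev_dk]; simp
  · intro k hk
    rw [map_smul, ev_dk, if_neg (Ne.symm hk)]; simp

lemma rem_inr (f : E1) : ∀ᵐ x ∂((volume : Measure ℝ).restrict (Ioc 0 1)),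
    (f - ∑' k, evk k f • dk k : E1) (Sum.inr x) = f (Sum.inr x) := by
  set R : E1 →L[ℂ] Lp ℂ 1 (nu.restrict Cs) := LpToLpRestrictCLM (ℕ ⊕ ℝ) ℂ ℂ nu 1 Cs with hR
  have hRe : ∀ g : E1, R g =ᵐ[nu.restrict Cs] g := fun g => LpToLpRestrictCLM_coeFn ℂ Cs g
  have hiff : ∀ p : ℕ ⊕ ℝ → Prop, (∀ᵐ x ∂(nu.restrict Cs), p x) ↔
      ∀ᵐ x ∂((volume : Measure ℝ).restrict (Ioc 0 1)), p (Sum.inr x) := by
    intro p
    rw [ae_restrict_iff' meas_Cs, ae_nu]
    simp [Cs]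
  have hRd : ∀ k, R (dk k) = 0 := by
    intro k
    refine Lp.ext ?_
    have h1 := hRe (dk k)
    have h2 := (hiff fun x => dk k x = 0).2 (dk_inr k)
    filter_upwards [h1, h2, Lp.coeFn_zero ℂ 1 (nu.restrict Cs)] with x hx1 hx2 hx3
    rw [hx1, hx2, hx3]; rfl
  have h1 : R (f - ∑' k, evk k f • dk k) = R f := by
    rw [map_sub, R.map_tsum (summ_dk f)]
    simp [hRd]
  have h2 := hRe (f - ∑' k, evk k f • dk k)
  have h3 := hRe f
  rw [h1] at h2
  rw [← hiff fun x => (f - ∑' k, evk k f • dk k : E1) x = f x]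
  filter_upwards [h2, h3] with x hx2 hx3
  rw [← hx2, hx3]

lemma split_E1 (f : E1) : ‖f - ∑' k, evk k f • dk k‖ + ∑' k, ‖evk k f‖ = ‖f‖ := by
  rw [(norm_formula f).2, (norm_formula (f - ∑' k, evk k f • dk k)).2]
  have h1 : ∫ x in Ioc (0:ℝ) 1, ‖(f - ∑' k, evk k f • dk k : E1) (Sum.inr x)‖ =
      ∫ x in Ioc (0:ℝ) 1, ‖f (Sum.inr x)‖ := by
    refine integral_congr_ae ?_
    filter_upwards [rem_inr f] with x hx
    rw [hx]
  have h2 : ∑' n, ‖(f - ∑' k, evk k f • dk k : E1) (Sum.inl n)‖ = 0 := by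
    simp_rw [rem_inl f, norm_zero, tsum_zero]
  rw [h1, h2, zero_add, add_comm]
  rfl

end Q142DP
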