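import Pool.Agent.Q142.DP.Poi
set_option autoImplicit false
set_option linter.unusedSectionVars false
open Filter Topology Set
namespace Q142DP

/-- A Banach space with a sequence of atoms split off isometrically. -/
structure At (E : Type) [NormedAddCommGroup E] [NormedSpace ℂ E] where
  ev : ℕ → E →L[ℂ] ℂ
  d : ℕ → E
  ev_d : ∀ k l, ev k (d l) = if k = l then 1 else 0
  summ : ∀ f, Summable fun k => ‖ev k f‖
  split : ∀ f, ‖f - ∑' k, ev k f • d k‖ + ∑' k, ‖ev k f‖ = ‖f‖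

namespace At
variable {E : Type} [NormedAddCommGroup E] [NormedSpace ℂ E] [CompleteSpace E] (A : At E)
variable {F : Type} [NormedAddCommGroup F] [NormedSpace ℂ F] [CompleteSpace F]

omit [CompleteSpace E] in
lemma tsum_le (f : E) : ∑' k, ‖A.ev k f‖ ≤ ‖f‖ := by
  have := A.split f
  linarith [norm_nonneg (f - ∑' k, A.ev k f • A.d k)]

omit [CompleteSpace E] [CompleteSpace F] in
lemma norm_term_le {v : ℕ → F} {M : ℝ} (hv : ∀ k, ‖v k‖ ≤ M) (f : E) (k : ℕ) :
    ‖A.ev k f • v k‖ ≤ ‖A.ev k f‖ * M := by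
  rw [norm_smul]; exact mul_le_mul_of_nonneg_left (hv k) (norm_nonneg _)

omit [CompleteSpace E] in
lemma summable_term {v : ℕ → F} {M : ℝ} (hv : ∀ k, ‖v k‖ ≤ M) (f : E) :
    Summable fun k => A.ev k f • v k :=
  Summable.of_norm_bounded ((A.summ f).mul_right M) fun k => A.norm_term_le hv f k

/-- The operator `f ↦ ∑ ev_k(f) v_k`. -/
noncomputable def S (v : ℕ → F) (M : ℝ) (hv : ∀ k, ‖v k‖ ≤ M) : E →L[ℂ] F :=
  LinearMap.mkContinuous
    { toFun := fun f => ∑' k, A.ev k f • v k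
      map_add' := fun f g => by
        rw [← (A.summable_term hv f).tsum_add (A.summable_term hv g)]
        refine tsum_congr fun k => ?_
        rw [map_add, add_smul]
      map_smul' := fun c f => by
        rw [RingHom.id_apply, ← (A.summable_term hv f).tsum_const_smul c]
        refine tsum_congr fun k => ?_
        rw [map_smul, smul_assoc] } M (fun f => by
      have h1 : ‖∑' k, A.ev k f • v k‖ ≤ ∑' k, ‖A.ev k f‖ * M :=
        tsum_of_norm_bounded ((A.summ f).mul_right M).hasSum fun k => A.norm_term_le hv f k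
      have hM : 0 ≤ M := (norm_nonneg _).trans (hv 0)
      refine h1.trans ?_
      rw [tsum_mul_right, mul_comm]
      exact mul_le_mul_of_nonneg_left (A.tsum_le f) hM)

lemma S_apply (v : ℕ → F) (M : ℝ) (hv : ∀ k, ‖v k‖ ≤ M) (f : E) :
    A.S v M hv f = ∑' k, A.ev k f • v k := rfl

lemma S_norm (v : ℕ → F) (M : ℝ) (hv : ∀ k, ‖v k‖ ≤ M) : ‖A.S v M hv‖ ≤ M :=
  LinearMap.mkContinuous_norm_le _ ((norm_nonneg _).trans (hv 0)) _

lemma tsum_ev_d (v : ℕ → F) (l : ℕ) : ∑' k, A.ev k (A.d l) • v k = v l := by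
  rw [tsum_eq_single l]
  · rw [A.ev_d]; simp
  · intro k hk
    rw [A.ev_d, if_neg hk, zero_smul]

lemma S_d (v : ℕ → F) (M : ℝ) (hv : ∀ k, ‖v k‖ ≤ M) (l : ℕ) : A.S v M hv (A.d l) = v l := by
  rw [S_apply, tsum_ev_d]

lemma norm_d (l : ℕ) : ‖A.d l‖ = 1 := by
  have h := A.split (A.d l)
  rw [A.tsum_ev_d, sub_self, norm_zero, zero_add] at h
  rw [← h, tsum_eq_single l]
  · rw [A.ev_d]; simp
  · intro k hk
    rw [A.ev_d, if_neg hk, norm_zero]

lemma norm_d_le (l : ℕ) : ‖A.d l‖ ≤ 1 := (A.norm_d l).le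

/-- The projection killing the atoms. -/
noncomputable def P : E →L[ℂ] E := 1 - A.S A.d 1 A.norm_d_le

lemma P_apply (f : E) : A.P f = f - ∑' k, A.ev k f • A.d k := rfl

lemma decomp (f : E) : f = A.P f + ∑' k, A.ev k f • A.d k := by rw [P_apply]; abel

lemma norm_eq (f : E) : ‖A.P f‖ + ∑' k, ‖A.ev k f‖ = ‖f‖ := A.split f

lemma P_d (l : ℕ) : A.P (A.d l) = 0 := by rw [P_apply, tsum_ev_d, sub_self]

lemma scal_le {c : ℕ → ℂ} (hc : ∀ k, ‖c k‖ ≤ 1) (k : ℕ) : ‖c k • A.d k‖ ≤ 1 := by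
  rw [norm_smul, A.norm_d, mul_one]; exact hc k

lemma ev_tsum (c : ℕ → ℂ) (f : E) (hs : Summable fun k => A.ev k f • (c k • A.d k)) (l : ℕ) :
    A.ev l (∑' k, A.ev k f • (c k • A.d k)) = c l * A.ev l f := by
  rw [(A.ev l).map_tsum hs, tsum_eq_single l]
  · rw [map_smul, map_smul, A.ev_d]; simp [mul_comm]
  · intro k hk
    rw [map_smul, map_smul, A.ev_d, if_neg (Ne.symm hk)]; simp

lemma P_tsum (c : ℕ → ℂ) (f : E) (hs : Summable fun k => A.ev k f • (c k • A.d k)) :
    A.P (∑' k, A.ev k f • (c k • A.d k)) = 0 := by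
  rw [(A.P).map_tsum hs]
  simp [A.P_d]

lemma ev_P (f : E) (l : ℕ) : A.ev l (A.P f) = 0 := by
  have h := A.ev_tsum (fun _ => 1) f (by simpa using A.summable_term A.norm_d_le f) l
  rw [P_apply, map_sub]
  simp only [one_smul, one_mul] at h
  rw [h, sub_self]

lemma P_P (f : E) : A.P (A.P f) = A.P f := by
  rw [A.P_apply (A.P f)]
  simp [A.ev_P]

lemma P_of_ev {f : E} (h : ∀ k, A.ev k f = 0) : A.P f = f := by
  rw [P_apply]; simp [h]

lemma ext' {f g : E} (h1 : A.P f = A.P g) (h2 : ∀ k, A.ev k f = A.ev k g) : f = g := by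
  rw [A.decomp f, A.decomp g, h1]
  simp [h2]

/-- exponential factor -/
noncomputable def ex (t : ℝ) (k : ℕ) : ℂ := ((Real.exp (-((k : ℝ) * |t|)) : ℝ) : ℂ)

omit [CompleteSpace E] in
lemma _root_.Q142DP.norm_ex (t : ℝ) (k : ℕ) : ‖ex t k‖ ≤ 1 := by
  unfold ex
  rw [Complex.norm_real, Real.norm_eq_abs, abs_of_pos (Real.exp_pos _)]
  exact Real.exp_le_one_iff.2 (by have : 0 ≤ (k:ℝ) * |t| := by positivity
                                  linarith)

/-- the semigroup -/
noncomputable def U (t : ℝ) : E →L[ℂ] E :=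
  A.P + A.S (fun k => ex t k • A.d k) 1 (A.scal_le (norm_ex t))

lemma U_apply (t : ℝ) (f : E) : A.U t f = A.P f + ∑' k, A.ev k f • (ex t k • A.d k) := rfl

lemma summ_ex (t : ℝ) (f : E) : Summable fun k => A.ev k f • (ex t k • A.d k) :=
  A.summable_term (A.scal_le (norm_ex t)) f

lemma P_U (t : ℝ) (f : E) : A.P (A.U t f) = A.P f := by
  rw [U_apply, map_add, A.P_tsum _ _ (A.summ_ex t f), A.P_P, add_zero]

lemma ev_U (t : ℝ) (f : E) (k : ℕ) : A.ev k (A.U t f) = ex t k * A.ev k f := by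
  rw [U_apply, map_add, A.ev_tsum _ _ (A.summ_ex t f), A.ev_P, zero_add]

lemma U_zero : A.U 0 = 1 := by
  ext f
  refine A.ext' ?_ fun k => ?_
  · rw [P_U]; rfl
  · rw [ev_U]; simp [ex]

lemma U_add (s t : ℝ) (hs : 0 ≤ s) (ht : 0 ≤ t) : A.U (s + t) = (A.U s).comp (A.U t) := by
  ext f
  refine A.ext' ?_ fun k => ?_
  · rw [P_U, ContinuousLinearMap.comp_apply, P_U, P_U]
  · rw [ev_U, ContinuousLinearMap.comp_apply, ev_U, ev_U, ← mul_assoc]
    congr 1
    unfold ex
    rw [← Complex.ofReal_mul, ← Real.exp_add, abs_of_nonneg hs, abs_of_nonneg ht,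
      abs_of_nonneg (add_nonneg hs ht)]
    ring_nf

lemma U_norm (t : ℝ) (f : E) : ‖A.U t f‖ ≤ ‖f‖ := by
  rw [← A.norm_eq f, ← A.norm_eq (A.U t f), P_U]
  gcongr with k
  · exact A.summ _
  · exact A.summ _
  · rw [ev_U, norm_mul]
    exact mul_le_of_le_one_left (norm_nonneg _) (norm_ex t k)

lemma U_cont (f : E) : Continuous fun t => A.U t f := by
  have : (fun t => A.U t f) = fun t => A.P f + ∑' k, A.ev k f • (ex t k • A.d k) := by
    funext t; exact A.U_apply t f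
  rw [this]
  refine continuous_const.add (continuous_tsum (u := fun k => ‖A.ev k f‖) (fun k => ?_)
    (A.summ f) fun k t => ?_)
  · unfold ex
    fun_prop
  · exact (A.norm_term_le (A.scal_le (norm_ex t)) f k).trans (by rw [mul_one])

/-- graph of the generator -/
def G : Submodule ℂ (E × E) where
  carrier := {x | A.P x.2 = 0 ∧ ∀ k : ℕ, A.ev k x.2 = -(k : ℂ) * A.ev k x.1}
  add_mem' := by
    rintro x y ⟨h1, h2⟩ ⟨h3, h4⟩
    refine ⟨by simp [h1, h3], fun k => ?_⟩
    simp only [Prod.snd_add, Prod.fst_add, map_add, h2 k, h4 k]; ring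
  zero_mem' := ⟨by simp, fun k => by simp⟩
  smul_mem' := by
    rintro c x ⟨h1, h2⟩
    refine ⟨by simp [h1], fun k => ?_⟩
    simp only [Prod.smul_snd, Prod.smul_fst, map_smul, h2 k, smul_eq_mul]; ring

lemma mem_G {x y : E} : (x, y) ∈ A.G ↔ A.P y = 0 ∧ ∀ k : ℕ, A.ev k y = -(k : ℂ) * A.ev k x :=
  Iff.rfl

lemma G_single (x : E × E) (hx : x ∈ A.G) (h0 : x.1 = 0) : x.2 = 0 := by
  obtain ⟨h1, h2⟩ := hx
  refine A.ext' ?_ fun k => ?_
  · rw [h1]; simp
  · rw [h2 k, h0]; simp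

/-- the generator -/
noncomputable def T : E →ₗ.[ℂ] E := A.G.toLinearPMap

lemma T_graph : A.T.graph = A.G := Submodule.toLinearPMap_graph_eq _ A.G_single

lemma T_mem (φ : A.T.domain) : A.P (A.T φ) = 0 ∧
    ∀ k : ℕ, A.ev k (A.T φ) = -(k : ℂ) * A.ev k (φ : E) := by
  have : ((φ : E), A.T φ) ∈ A.G := by rw [← T_graph]; exact A.T.mem_graph φ
  exact this

lemma T_of_mem {x y : E} (h : (x, y) ∈ A.G) : ∃ φ : A.T.domain, (φ : E) = x ∧ A.T φ = y := by
  rw [← T_graph, LinearPMap.mem_graph_iff] at h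
  obtain ⟨φ, h1, h2⟩ := h
  exact ⟨φ, h1, h2⟩

/-- generator = derivative at zero -/
lemma T_gen (x y : E) : (x, y) ∈ A.T.graph ↔
    Tendsto (fun t : ℝ => ((t⁻¹ : ℝ) : ℂ) • (A.U t x - x)) (𝓝[>] 0) (𝓝 y) := by
  rw [T_graph, mem_G]
  have hder : ∀ k : ℕ, Tendsto (fun t : ℝ => ((t⁻¹ : ℝ) : ℂ) * (ex t k - 1)) (𝓝[>] 0)
      (𝓝 (-(k : ℂ))) := by
    intro k
    have h1 : HasDerivAt (fun t : ℝ => Real.exp (-((k : ℝ) * t))) (-(k : ℝ)) 0 := by
      have h0 : HasDerivAt (fun s : ℝ => -((k : ℝ) * s)) (-(k : ℝ)) 0 := by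
        have := ((hasDerivAt_id (0:ℝ)).const_mul (k : ℝ)).neg
        simp only [mul_one] at this
        exact this
      refine h0.exp.congr_deriv ?_
      simp
    have h2 := (h1.tendsto_slope_zero_right)
    have h3 : Tendsto (fun t : ℝ => (((t⁻¹ • (Real.exp (-((k : ℝ) * (0 + t))) -
        Real.exp (-((k : ℝ) * 0))) : ℝ)) : ℂ)) (𝓝[>] 0) (𝓝 ((-(k : ℝ) : ℝ) : ℂ)) :=
      (Complex.continuous_ofReal.tendsto _).comp h2
    rw [Complex.ofReal_neg, Complex.ofReal_natCast] at h3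
    refine h3.congr' ?_
    filter_upwards [self_mem_nhdsWithin] with t ht
    have ht0 : (0:ℝ) < t := ht
    unfold ex
    rw [abs_of_pos ht0, smul_eq_mul, zero_add, mul_zero, neg_zero, Real.exp_zero]
    push_cast; rfl
  have hU : ∀ t, A.U t x - x = ∑' k, A.ev k x • ((ex t k - 1) • A.d k) := by
    intro t
    have e : A.U t x - x = (A.P x + ∑' k, A.ev k x • (ex t k • A.d k)) -
        (A.P x + ∑' k, A.ev k x • A.d k) := by
      rw [← A.decomp x, U_apply]
    rw [e, add_sub_add_left_eq_sub, ← (A.summ_ex t x).tsum_sub (A.summable_term A.norm_d_le x)]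
    refine tsum_congr fun k => ?_
    rw [sub_smul, one_smul, smul_sub]
  have hex : ∀ t : ℝ, 0 < t → ∀ k : ℕ, ‖((t⁻¹ : ℝ) : ℂ) * (ex t k - 1)‖ ≤ k := by
    intro t ht k
    unfold ex
    rw [abs_of_pos ht, ← Complex.ofReal_one, ← Complex.ofReal_sub, ← Complex.ofReal_mul,
      Complex.norm_real, Real.norm_eq_abs, abs_mul, abs_of_pos (inv_pos.2 ht)]
    have h1 : |Real.exp (-((k : ℝ) * t)) - 1| ≤ k * t := by
      rw [abs_sub_comm, abs_of_nonneg]
      · have := Real.add_one_le_exp (-((k : ℝ) * t))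
        linarith
      · have : Real.exp (-((k : ℝ) * t)) ≤ 1 :=
          Real.exp_le_one_iff.2 (by have : 0 ≤ (k:ℝ) * t := by positivity
                                    linarith)
        linarith
    calc t⁻¹ * |Real.exp (-((k : ℝ) * t)) - 1| ≤ t⁻¹ * (k * t) :=
          mul_le_mul_of_nonneg_left h1 (inv_pos.2 ht).le
      _ = k := by field_simp
  constructor
  · rintro ⟨h1, h2⟩
    have hy : y = ∑' k, A.ev k x • ((-(k : ℂ)) • A.d k) := by
      nth_rewrite 1 [A.decomp y]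
      rw [h1, zero_add]
      refine tsum_congr fun k => ?_
      rw [h2 k, smul_smul, mul_comm]
    rw [hy]
    have key : Tendsto (fun t : ℝ => ∑' k, A.ev k x • ((((t⁻¹ : ℝ) : ℂ) * (ex t k - 1)) • A.d k))
        (𝓝[>] 0) (𝓝 (∑' k, A.ev k x • ((-(k : ℂ)) • A.d k))) := by
      refine tendsto_tsum_of_dominated_convergence (bound := fun k => ‖A.ev k y‖) (A.summ y)
        (fun k => ?_) ?_
      · exact ((hder k).smul_const (A.d k)).const_smul (A.ev k x)
      · filter_upwards [self_mem_nhdsWithin] with t ht k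
        rw [norm_smul, norm_smul, A.norm_d, mul_one, h2 k, mul_comm ‖A.ev k x‖]
        refine (mul_le_mul_of_nonneg_right (hex t ht k) (norm_nonneg _)).trans ?_
        rw [norm_mul, norm_neg]
        simp
    refine key.congr fun t => ?_
    rw [hU]
    have hsum : Summable fun k => A.ev k x • ((ex t k - 1) • A.d k) := by
      have := (A.summ_ex t x).sub (A.summable_term A.norm_d_le x)
      refine this.congr fun k => ?_
      rw [sub_smul, one_smul, smul_sub]
    rw [← hsum.tsum_const_smul]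
    refine tsum_congr fun k => ?_
    rw [smul_comm (((t⁻¹ : ℝ) : ℂ)) (A.ev k x), smul_smul (((t⁻¹ : ℝ) : ℂ))]
  · intro h
    constructor
    · have h1 := ((A.P).continuous.tendsto y).comp h
      have h2 : (A.P ∘ fun t : ℝ => ((t⁻¹ : ℝ) : ℂ) • (A.U t x - x)) = fun _ => 0 := by
        funext t
        simp [A.P_U]
      rw [h2] at h1
      exact (tendsto_nhds_unique h1 tendsto_const_nhds)
    · intro k
      have h1 := ((A.ev k).continuous.tendsto y).comp h
      have h2 : Tendsto (A.ev k ∘ fun t : ℝ => ((t⁻¹ : ℝ) : ℂ) • (A.U t x - x)) (𝓝[>] 0)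
          (𝓝 (-(k : ℂ) * A.ev k x)) := by
        refine ((hder k).mul_const (A.ev k x)).congr fun t => ?_
        simp only [Function.comp, map_smul, map_sub, A.ev_U, smul_eq_mul]
        ring
      exact tendsto_nhds_unique h1 h2

end At
end Q142DP
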