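import Pool.Agent.Q142.DP.Core
set_option autoImplicit false
set_option linter.unusedSectionVars false
open Filter Topology Set MeasureTheory
namespace Q142DP

/-- Atoms together with profiles `ρ k` in the complementary part. -/
structure AtR (E : Type) [NormedAddCommGroup E] [NormedSpace ℂ E] extends At E where
  r : ℕ → E
  ev_r : ∀ k l, ev k (r l) = 0
  norm_r : ∀ k, ‖r k‖ ≤ 2

namespace AtR
open At (ex)
variable {E : Type} [NormedAddCommGroup E] [NormedSpace ℂ E] [CompleteSpace E] (A : AtR E)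

/-- `¼ (d_k + ρ_k)` -/
noncomputable def q (k : ℕ) : E := (1 / 4 : ℂ) • (A.d k + A.r k)

lemma q_norm (k : ℕ) : ‖A.q k‖ ≤ 3 / 4 := by
  unfold q
  rw [norm_smul]
  have h1 := norm_add_le (A.d k) (A.r k)
  have h2 := A.norm_r k
  have h3 := A.norm_d k
  have h4 : ‖(1 / 4 : ℂ)‖ = 1 / 4 := by norm_num
  rw [h4]; linarith

/-- the perturbation `B = -K T` -/
noncomputable def B : A.T.domain →ₗ[ℂ] E :=
  -((A.S A.q (3 / 4) A.q_norm).toLinearMap ∘ₗ A.T.toFun)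

lemma B_apply (φ : A.T.domain) : A.B φ = -(A.S A.q (3 / 4) A.q_norm (A.T φ)) := rfl

lemma B_bdd (φ : A.T.domain) : ‖A.B φ‖ ≤ 0 * ‖(φ : E)‖ + 3 / 4 * ‖A.T φ‖ := by
  rw [B_apply, norm_neg, zero_mul, zero_add]
  exact ((A.S A.q (3 / 4) A.q_norm).le_opNorm _).trans
    (mul_le_mul_of_nonneg_right (A.S_norm _ _ _) (norm_nonneg _))

lemma P_res (l : ℝ) (φ : A.T.domain) :
    A.P ((l : ℂ) • (φ : E) - A.T φ) = (l : ℂ) • A.P (φ : E) := by
  rw [map_sub, map_smul, (A.T_mem φ).1, sub_zero]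

lemma ev_res (l : ℝ) (φ : A.T.domain) (k : ℕ) :
    A.ev k ((l : ℂ) • (φ : E) - A.T φ) = ((l : ℂ) + k) * A.ev k (φ : E) := by
  rw [map_sub, map_smul, (A.T_mem φ).2 k, smul_eq_mul]; ring

lemma ne_add {l : ℝ} (hl : 1 < l) (k : ℕ) : ((l : ℂ) + k) ≠ 0 := by
  have h : (0 : ℝ) < l + k := by positivity
  have : ((l + k : ℝ) : ℂ) ≠ 0 := Complex.ofReal_ne_zero.2 h.ne'
  simpa using this

lemma norm_add {l : ℝ} (hl : 1 < l) (k : ℕ) : ‖((l : ℂ) + k)‖ = l + k := by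
  have h : (0 : ℝ) < l + k := by positivity
  have : ((l : ℂ) + k) = ((l + k : ℝ) : ℂ) := by simp
  rw [this, Complex.norm_real, Real.norm_eq_abs, abs_of_pos h]

lemma res_bij {l : ℝ} (hl : 1 < l) :
    Function.Bijective (fun φ : A.T.domain => (l : ℂ) • (φ : E) - A.T φ) := by
  have hl0 : (l : ℂ) ≠ 0 := Complex.ofReal_ne_zero.2 (by linarith)
  constructor
  · intro φ ψ h
    have h : (l : ℂ) • (φ : E) - A.T φ = (l : ℂ) • (ψ : E) - A.T ψ := h
    apply Subtype.ext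
    refine A.ext' ?_ fun k => ?_
    · have := congrArg A.P h
      rw [P_res, P_res] at this
      exact smul_right_injective E hl0 this
    · have := congrArg (A.ev k) h
      rw [ev_res, ev_res] at this
      exact mul_left_cancel₀ (ne_add hl k) this
  · intro f
    have hc1 : ∀ k : ℕ, ‖(((l : ℂ) + k)⁻¹)‖ ≤ 1 := by
      intro k
      rw [norm_inv, norm_add hl]
      apply inv_le_one_of_one_le₀
      have : (0:ℝ) ≤ k := Nat.cast_nonneg k
      linarith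
    have hc2 : ∀ k : ℕ, ‖(-(k : ℂ) * ((l : ℂ) + k)⁻¹)‖ ≤ 1 := by
      intro k
      rw [norm_mul, norm_neg, norm_inv, norm_add hl, Complex.norm_natCast, ← div_eq_mul_inv]
      apply div_le_one_of_le₀
      · linarith
      · positivity
    have s1 := A.summable_term (A.scal_le hc1) f
    have s2 := A.summable_term (A.scal_le hc2) f
    set x : E := (l : ℂ)⁻¹ • A.P f + ∑' k, A.ev k f • ((((l : ℂ) + k)⁻¹) • A.d k) with hx
    set y : E := ∑' k, A.ev k f • ((-(k : ℂ) * ((l : ℂ) + k)⁻¹) • A.d k) with hy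
    have evx : ∀ k, A.ev k x = ((l : ℂ) + k)⁻¹ * A.ev k f := by
      intro k
      rw [hx, map_add, map_smul, A.ev_P, smul_zero, zero_add,
        A.ev_tsum (fun k => ((l : ℂ) + k)⁻¹) f s1]
    have evy : ∀ k, A.ev k y = (-(k : ℂ) * ((l : ℂ) + k)⁻¹) * A.ev k f := by
      intro k
      rw [hy, A.ev_tsum (fun k => -(k : ℂ) * ((l : ℂ) + k)⁻¹) f s2]
    have hG : (x, y) ∈ A.G := by
      refine ⟨A.P_tsum (fun k => -(k : ℂ) * ((l : ℂ) + k)⁻¹) f s2, fun k => ?_⟩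
      change A.ev k y = _ * A.ev k x
      rw [evx, evy]; ring
    obtain ⟨φ, h1, h2⟩ := A.T_of_mem hG
    refine ⟨φ, ?_⟩
    change (l : ℂ) • (φ : E) - A.T φ = f
    refine A.ext' ?_ fun k => ?_
    · rw [P_res, h1, hx, map_add, map_smul, A.P_P, A.P_tsum (fun k => ((l : ℂ) + k)⁻¹) f s1,
        add_zero, smul_smul, mul_inv_cancel₀ hl0, one_smul]
    · rw [ev_res, h1, evx, ← mul_assoc, mul_inv_cancel₀ (ne_add hl k), one_mul]

lemma res_rad [Nontrivial E] {l : ℝ} (hl : 1 < l) :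
    ∃ C : E →L[ℂ] E, (∀ φ : A.T.domain, C ((l : ℂ) • (φ : E) - A.T φ) = A.B φ) ∧
      spectralRadius ℂ C < 1 := by
  have hv : ∀ k : ℕ, ‖((k : ℂ) * ((l : ℂ) + k)⁻¹) • A.q k‖ ≤ 3 / 4 := by
    intro k
    rw [norm_smul, norm_mul, norm_inv, norm_add hl, Complex.norm_natCast, ← div_eq_mul_inv]
    have h1 : (k : ℝ) / (l + k) ≤ 1 := by
      apply div_le_one_of_le₀
      · linarith
      · positivity
    have h2 : (0:ℝ) ≤ (k : ℝ) / (l + k) := by positivity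
    calc (k : ℝ) / (l + k) * ‖A.q k‖ ≤ 1 * (3 / 4) :=
          mul_le_mul h1 (A.q_norm k) (norm_nonneg _) zero_le_one
      _ = 3 / 4 := by norm_num
  refine ⟨A.S (fun k => ((k : ℂ) * ((l : ℂ) + k)⁻¹) • A.q k) (3 / 4) hv, fun φ => ?_, ?_⟩
  · rw [B_apply, A.S_apply, A.S_apply, ← tsum_neg]
    refine tsum_congr fun k => ?_
    rw [ev_res, (A.T_mem φ).2 k, smul_smul, ← neg_smul]
    congr 1
    field_simp [ne_add hl k]
  · have h1 := spectrum.spectralRadius_le_nnnorm (𝕜 := ℂ)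
      (A.S (fun k => ((k : ℂ) * ((l : ℂ) + k)⁻¹) • A.q k) (3 / 4) hv)
    refine h1.trans_lt ?_
    have h2 := A.S_norm _ _ hv
    rw [← ENNReal.coe_one, ENNReal.coe_lt_coe, ← NNReal.coe_lt_coe, coe_nnnorm, NNReal.coe_one]
    linarith

/-- coefficient vectors -/
noncomputable def u (j c : ℕ) (t : ℝ) (k : ℕ) : E :=
  ((1 / 4 : ℂ) ^ c) • (((pw j (k * |t|) : ℝ) : ℂ) • A.d k + ((tl j (k * |t|) : ℝ) : ℂ) • A.r k)

lemma u_norm (j c : ℕ) (t : ℝ) (k : ℕ) : ‖A.u j c t k‖ ≤ 3 := by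
  have ht : 0 ≤ (k : ℝ) * |t| := by positivity
  have h1 : ‖((pw j (k * |t|) : ℝ) : ℂ) • A.d k‖ ≤ 1 := by
    rw [norm_smul, A.norm_d, mul_one, Complex.norm_real, Real.norm_eq_abs,
      abs_of_nonneg (pw_nonneg j ht)]
    exact pw_le_one j ht
  have h2 : ‖((tl j (k * |t|) : ℝ) : ℂ) • A.r k‖ ≤ 2 := by
    rw [norm_smul, Complex.norm_real, Real.norm_eq_abs, abs_of_nonneg (tl_nonneg j ht)]
    calc tl j (k * |t|) * ‖A.r k‖ ≤ 1 * 2 :=
          mul_le_mul (tl_le_one j ht) (A.norm_r k) (norm_nonneg _) zero_le_one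
      _ = 2 := by norm_num
  unfold u
  rw [norm_smul, norm_pow]
  have h3 : ‖(1 / 4 : ℂ)‖ ^ c ≤ 1 := pow_le_one₀ (norm_nonneg _) (by norm_num)
  have h4 := norm_add_le (((pw j (k * |t|) : ℝ) : ℂ) • A.d k) (((tl j (k * |t|) : ℝ) : ℂ) • A.r k)
  calc _ ≤ 1 * (3:ℝ) := mul_le_mul h3 (by linarith) (norm_nonneg _) zero_le_one
    _ = 3 := by norm_num

lemma u_cont (j c : ℕ) (k : ℕ) : Continuous fun t => A.u j c t k := by
  unfold u
  have h1 := pw_cont j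
  have h2 := tl_cont j
  fun_prop

/-- Dyson-Phillips terms -/
noncomputable def V : ℕ → ℝ → E →L[ℂ] E
  | 0, t => A.U t
  | j + 1, t => A.S (A.u (j + 1) (j + 1) t) 3 (A.u_norm _ _ t)

lemma V_zero (t : ℝ) : A.V 0 t = A.U t := rfl

lemma V_succ (j : ℕ) (t : ℝ) (f : E) :
    A.V (j + 1) t f = ∑' k, A.ev k f • A.u (j + 1) (j + 1) t k := rfl

lemma V_d (j : ℕ) (t : ℝ) (k : ℕ) : A.V (j + 1) t (A.d k) = A.u (j + 1) (j + 1) t k := by
  rw [V_succ, A.tsum_ev_d]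

lemma V_q (j : ℕ) (t : ℝ) (k : ℕ) : A.V j t (A.q k) = A.u j (j + 1) t k := by
  unfold q
  rw [map_smul, map_add]
  cases j with
  | zero =>
    rw [V_zero]
    have h1 : A.U t (A.d k) = ex t k • A.d k := by
      rw [A.U_apply, A.P_d, zero_add, A.tsum_ev_d]
    have h2 : A.U t (A.r k) = A.r k := by
      rw [A.U_apply, A.P_of_ev (fun l => A.ev_r l k)]
      simp [A.ev_r]
    rw [h1, h2]
    unfold u ex
    simp [pw, tl]
  | succ j =>
    rw [V_d]
    have h2 : A.V (j + 1) t (A.r k) = 0 := by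
      rw [V_succ]; simp [A.ev_r]
    rw [h2, add_zero]
    unfold u
    rw [smul_smul, ← pow_succ']

lemma U_dom (φ : A.T.domain) (s : ℝ) : (A.U s (φ : E), A.U s (A.T φ)) ∈ A.G := by
  refine ⟨?_, fun k => ?_⟩
  · change A.P (A.U s (A.T φ)) = 0
    rw [A.P_U, (A.T_mem φ).1]
  · change A.ev k (A.U s (A.T φ)) = _ * A.ev k (A.U s (φ : E))
    rw [A.ev_U, A.ev_U, (A.T_mem φ).2 k]; ring

lemma U_mem (φ : A.T.domain) (s : ℝ) : A.U s (φ : E) ∈ A.T.domain := by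
  obtain ⟨ψ, h1, _⟩ := A.T_of_mem (A.U_dom φ s)
  rw [← h1]; exact ψ.2

lemma T_U (φ : A.T.domain) (s : ℝ) (h : A.U s (φ : E) ∈ A.T.domain) :
    A.T ⟨A.U s φ, h⟩ = A.U s (A.T φ) := by
  obtain ⟨ψ, h1, h2⟩ := A.T_of_mem (A.U_dom φ s)
  rw [← h2]
  congr 1
  exact Subtype.ext h1.symm

lemma VBU (j : ℕ) (t s : ℝ) (φ : A.T.domain) (h : A.U s (φ : E) ∈ A.T.domain) :
    A.V j t (A.B ⟨A.U s φ, h⟩) =
      ∑' k, A.ev k (φ : E) • (((k : ℂ) * ex s k) • A.u j (j + 1) t k) := by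
  have hs : Summable fun k => A.ev k (A.U s (A.T φ)) • A.q k :=
    A.summable_term A.q_norm _
  rw [B_apply, T_U, A.S_apply, map_neg, (A.V j t).map_tsum hs, ← tsum_neg]
  refine tsum_congr fun k => ?_
  rw [map_smul, V_q, A.ev_U, (A.T_mem φ).2 k, smul_smul, ← neg_smul]
  congr 1; ring

section Int
variable [NormedSpace ℝ E] [IsScalarTower ℝ ℂ E]

lemma int_piece (h : ℝ → ℝ) (v : E) (a b : ℝ) :
    ∫ s in a..b, ((h s : ℝ) : ℂ) • v = ((∫ s in a..b, h s : ℝ) : ℂ) • v := by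
  rw [intervalIntegral.integral_smul_const, intervalIntegral.integral_ofReal]

lemma int_u (j c : ℕ) (k : ℕ) {t : ℝ} (ht : 0 ≤ t) :
    ∫ s in (0:ℝ)..t, ((k : ℂ) * ex s k) • A.u j c (t - s) k = A.u (j + 1) c t k := by
  have e : ∀ s ∈ uIcc (0:ℝ) t, ((k : ℂ) * ex s k) • A.u j c (t - s) k =
      ((((k : ℝ) * Real.exp (-((k : ℝ) * s)) * pw j (k * (t - s)) : ℝ)) : ℂ) •
        (((1 / 4 : ℂ) ^ c) • A.d k) +
      ((((k : ℝ) * Real.exp (-((k : ℝ) * s)) * tl j (k * (t - s)) : ℝ)) : ℂ) •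
        (((1 / 4 : ℂ) ^ c) • A.r k) := by
    intro s hs
    rw [uIcc_of_le ht] at hs
    unfold u ex
    rw [abs_of_nonneg hs.1, abs_of_nonneg (sub_nonneg.2 hs.2)]
    simp only [smul_add, smul_smul]
    push_cast
    congr 2 <;> ring
  have c1 := pw_cont j
  have c2 := tl_cont j
  rw [intervalIntegral.integral_congr e, intervalIntegral.integral_add, int_piece, int_piece,
    int_pw, int_tl]
  · unfold u
    rw [abs_of_nonneg ht, smul_add, smul_smul, smul_smul, smul_smul, smul_smul]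
    congr 2 <;> ring
  · apply Continuous.intervalIntegrable
    fun_prop
  · apply Continuous.intervalIntegrable
    fun_prop

lemma DP (j : ℕ) (t : ℝ) (ht : 0 ≤ t) (φ : A.T.domain) :
    ∃ g : ℝ → E, (∀ s ∈ Icc 0 t, ∃ h : A.U s (φ : E) ∈ A.T.domain,
        g s = A.V j (t - s) (A.B ⟨A.U s φ, h⟩)) ∧
      IntervalIntegrable g volume 0 t ∧ A.V (j + 1) t φ = ∫ s in (0:ℝ)..t, g s := by
  have hb : ∀ (k : ℕ) (s : ℝ), ‖A.ev k (φ : E) • (((k : ℂ) * ex s k) • A.u j (j + 1) (t - s) k)‖ ≤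
      ‖A.ev k (A.T φ)‖ * 3 := by
    intro k s
    rw [norm_smul, norm_smul, norm_mul, (A.T_mem φ).2 k, norm_mul, norm_neg]
    have h1 := norm_ex s k
    have h2 := A.u_norm j (j + 1) (t - s) k
    have h3 : ‖ex s k‖ * ‖A.u j (j + 1) (t - s) k‖ ≤ 1 * 3 :=
      mul_le_mul h1 h2 (norm_nonneg _) zero_le_one
    have h4 : 0 ≤ ‖A.ev k (φ : E)‖ * ‖(k : ℂ)‖ := by positivity
    calc ‖A.ev k (φ : E)‖ * (‖(k : ℂ)‖ * ‖ex s k‖ * ‖A.u j (j + 1) (t - s) k‖)
        = (‖A.ev k (φ : E)‖ * ‖(k : ℂ)‖) * (‖ex s k‖ * ‖A.u j (j + 1) (t - s) k‖) := by ring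
      _ ≤ (‖A.ev k (φ : E)‖ * ‖(k : ℂ)‖) * (1 * 3) := mul_le_mul_of_nonneg_left h3 h4
      _ = _ := by ring
  have hcont : ∀ k : ℕ, Continuous fun s : ℝ =>
      A.ev k (φ : E) • (((k : ℂ) * ex s k) • A.u j (j + 1) (t - s) k) := by
    intro k
    have h1 : Continuous fun s : ℝ => A.u j (j + 1) (t - s) k :=
      (A.u_cont j (j + 1) k).comp (continuous_const.sub continuous_id)
    have h2 : Continuous fun s : ℝ => ex s k := by unfold ex; fun_prop
    fun_prop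
  have hsumm : Summable fun k => ‖A.ev k (A.T φ)‖ * 3 := (A.summ _).mul_right 3
  refine ⟨fun s => ∑' k, A.ev k (φ : E) • (((k : ℂ) * ex s k) • A.u j (j + 1) (t - s) k),
    fun s _ => ⟨A.U_mem φ s, (A.VBU j (t - s) s φ (A.U_mem φ s)).symm⟩, ?_, ?_⟩
  · exact (continuous_tsum hcont hsumm hb).intervalIntegrable _ _
  · have key := intervalIntegral.hasSum_integral_of_dominated_convergence (μ := volume)
      (a := (0:ℝ)) (b := t)
      (F := fun (k : ℕ) (s : ℝ) => A.ev k (φ : E) • (((k : ℂ) * ex s k) • A.u j (j + 1) (t - s) k))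
      (f := fun s => ∑' k, A.ev k (φ : E) • (((k : ℂ) * ex s k) • A.u j (j + 1) (t - s) k))
      (fun (k : ℕ) (_ : ℝ) => ‖A.ev k (A.T φ)‖ * 3)
      (fun k => (hcont k).aestronglyMeasurable)
      (fun k => Eventually.of_forall fun s _ => hb k s)
      (Eventually.of_forall fun s _ => hsumm)
      (intervalIntegrable_const)
      (Eventually.of_forall fun s _ => (Summable.of_norm_bounded hsumm fun k => hb k s).hasSum)
    rw [← key.tsum_eq, V_succ]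
    refine tsum_congr fun k => ?_
    rw [intervalIntegral.integral_smul, A.int_u j (j + 1) k ht]

end Int

end AtR
end Q142DP
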