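import Mathlib
set_option autoImplicit false
open Filter Topology Set Metric
namespace Q142DP

/-- A bounded operator is weakly compact if it maps bounded sets to relatively weakly compact
sets: the closure of the image in the weak topology is compact. -/
def WeaklyCompact {E F : Type} [NormedAddCommGroup E] [NormedSpace ℂ E]
    [NormedAddCommGroup F] [NormedSpace ℂ F] (A : E →L[ℂ] F) : Prop :=
  ∀ s : Set E, Bornology.IsBounded s → IsCompact (closure (toWeakSpace ℂ F '' (A '' s)))

section
variable {E F : Type} [NormedAddCommGroup E] [NormedSpace ℂ E]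
  [NormedAddCommGroup F] [NormedSpace ℂ F]

instance : R1Space (WeakSpace ℂ E) := by
  have : IsTopologicalAddGroup (WeakSpace ℂ E) := inferInstance
  infer_instance

lemma wc_iff (A : E →L[ℂ] F) (h : ∀ R : ℝ, ∃ K : Set (WeakSpace ℂ F), IsCompact K ∧
    ∀ x : E, ‖x‖ ≤ R → toWeakSpace ℂ F (A x) ∈ K) : WeaklyCompact A := by
  intro s hs
  obtain ⟨R, hR⟩ := hs.exists_norm_le
  obtain ⟨K, hK, hx⟩ := h R
  refine hK.closure_of_subset ?_
  rintro _ ⟨_, ⟨x, hxs, rfl⟩, rfl⟩
  exact hx x (hR x hxs)

lemma wc_add {A B : E →L[ℂ] F} (hA : WeaklyCompact A) (hB : WeaklyCompact B) :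
    WeaklyCompact (A + B) := by
  refine wc_iff _ fun R => ?_
  have h1 := hA (closedBall 0 R) isBounded_closedBall
  have h2 := hB (closedBall 0 R) isBounded_closedBall
  refine ⟨_, h1.add h2, fun x hx => ?_⟩
  have hx' : x ∈ closedBall (0 : E) R := by simpa using hx
  rw [add_apply, map_add]
  exact Set.add_mem_add (subset_closure ⟨_, ⟨x, hx', rfl⟩, rfl⟩)
    (subset_closure ⟨_, ⟨x, hx', rfl⟩, rfl⟩)

lemma wc_of_compact {A : E →L[ℂ] F} (hA : IsCompactOperator A) : WeaklyCompact A := by
  refine wc_iff _ fun R => ?_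
  have h1 : IsCompact (closure (A '' closedBall 0 R)) :=
    hA.isCompact_closure_image_closedBall R
  refine ⟨toWeakSpaceCLM ℂ F '' closure (A '' closedBall 0 R),
    h1.image (toWeakSpaceCLM ℂ F).continuous, fun x hx => ?_⟩
  have hx' : x ∈ closedBall (0 : E) R := by simpa using hx
  exact ⟨A x, subset_closure ⟨x, hx', rfl⟩, rfl⟩

variable {H : Type} [NormedAddCommGroup H] [InnerProductSpace ℂ H] [CompleteSpace H]

lemma hilbert_ball (R : ℝ) : ∃ K : Set (WeakSpace ℂ H), IsCompact K ∧
    ∀ x : H, ‖x‖ ≤ R → toWeakSpace ℂ H x ∈ K := by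
  have h1 := WeakDual.isCompact_closedBall (𝕜 := ℂ) (E := H) (0 : StrongDual ℂ H) R
  set Φ : WeakDual ℂ H → WeakSpace ℂ H := fun φ =>
    toWeakSpace ℂ H ((InnerProductSpace.toDual ℂ H).symm (WeakDual.toStrongDual φ)) with hΦ
  have hc : Continuous Φ := by
    refine WeakBilin.continuous_of_continuous_eval _ fun y => ?_
    have e : ∀ φ : WeakDual ℂ H, (topDualPairing ℂ H).flip (Φ φ) y =
        (starRingEnd ℂ) (φ ((InnerProductSpace.toDual ℂ H).symm y)) := by
      intro φ
      change y ((InnerProductSpace.toDual ℂ H).symm (WeakDual.toStrongDual φ)) = _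
      have h2 : y ((InnerProductSpace.toDual ℂ H).symm (WeakDual.toStrongDual φ)) =
          inner ℂ ((InnerProductSpace.toDual ℂ H).symm y)
            ((InnerProductSpace.toDual ℂ H).symm (WeakDual.toStrongDual φ)) := by
        rw [InnerProductSpace.toDual_symm_apply]
      have h3 : φ ((InnerProductSpace.toDual ℂ H).symm y) =
          inner ℂ ((InnerProductSpace.toDual ℂ H).symm (WeakDual.toStrongDual φ))
            ((InnerProductSpace.toDual ℂ H).symm y) := by
        rw [InnerProductSpace.toDual_symm_apply]; rfl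
      rw [h2, h3, inner_conj_symm]
    simp_rw [e]
    exact Complex.continuous_conj.comp (WeakDual.eval_continuous _)
  refine ⟨_, h1.image hc, fun x hx => ?_⟩
  refine ⟨StrongDual.toWeakDual (InnerProductSpace.toDual ℂ H x), ?_, ?_⟩
  · change InnerProductSpace.toDual ℂ H x ∈ closedBall 0 R
    rw [mem_closedBall_zero_iff, LinearIsometryEquiv.norm_map]
    exact hx
  · change toWeakSpace ℂ H ((InnerProductSpace.toDual ℂ H).symm
      (InnerProductSpace.toDual ℂ H x)) = _
    rw [LinearIsometryEquiv.symm_apply_apply]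

lemma wc_factor (K : E →L[ℂ] H) (J : H →L[ℂ] F) : WeaklyCompact (J.comp K) := by
  refine wc_iff _ fun R => ?_
  obtain ⟨C, hC, hx⟩ := hilbert_ball (H := H) (‖K‖ * R)
  refine ⟨WeakSpace.map J '' C, hC.image (WeakSpace.map J).continuous, fun x hxR => ?_⟩
  refine ⟨toWeakSpace ℂ H (K x), hx _ ?_, rfl⟩
  exact (K.le_opNorm x).trans (mul_le_mul_of_nonneg_left hxR (norm_nonneg _))

end
end Q142DP
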