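import Pool.Agent.Q142.DP.Core2
import Pool.Agent.Q142.DP.WC
set_option autoImplicit false
set_option linter.unusedSectionVars false
open Filter Topology Set MeasureTheory Metric
namespace Q142DP

namespace At
variable {E : Type} [NormedAddCommGroup E] [NormedSpace ℂ E] [CompleteSpace E] (A : At E)
variable {F : Type} [NormedAddCommGroup F] [NormedSpace ℂ F] [CompleteSpace F]

lemma S_compact (v : ℕ → F) (M : ℝ) (hv : ∀ k, ‖v k‖ ≤ M) (h0 : Tendsto v atTop (𝓝 0)) :
    IsCompactOperator (A.S v M hv) := by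
  have hM : 0 ≤ M := (norm_nonneg _).trans (hv 0)
  let w : ℕ → ℕ → F := fun N k => if k < N then 0 else v k
  have hw : ∀ N k, ‖w N k‖ ≤ M := by
    intro N k
    by_cases h : k < N
    · simp [w, h, hM]
    · simp [w, h, hv k]
  let G : ℕ → E →L[ℂ] F := fun N => A.S v M hv - A.S (w N) M (hw N)
  have hG : ∀ N, IsCompactOperator (G N) := by
    intro N
    have e : G N = ∑ k ∈ Finset.range N,
        (ContinuousLinearMap.toSpanSingleton ℂ (v k)).comp (A.ev k) := by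
      ext f
      change A.S v M hv f - A.S (w N) M (hw N) f = _
      rw [A.S_apply, A.S_apply,
        ← (A.summable_term hv f).tsum_sub (A.summable_term (hw N) f)]
      rw [tsum_eq_sum (s := Finset.range N)]
      · simp only [FunLike.coe_sum, Finset.sum_apply]
        refine Finset.sum_congr rfl fun k hk => ?_
        have hk' : k < N := Finset.mem_range.1 hk
        simp [w, hk']
      · intro k hk
        have hk' : ¬ k < N := fun h => hk (Finset.mem_range.2 h)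
        simp [w, hk']
    rw [e]
    refine Finset.sum_induction _ (fun T : E →L[ℂ] F => IsCompactOperator T)
      (fun a b ha hb => ?_) ?_ fun k _ => ?_
    · exact IsCompactOperator.add ha hb
    · exact isCompactOperator_zero
    · have h1 : IsCompactOperator (A.ev k) := isCompactOperator_of_locallyCompactSpace_dom _
      exact h1.clm_comp (ContinuousLinearMap.toSpanSingleton ℂ (v k))
  refine isCompactOperator_of_tendsto (l := atTop) (F := G) ?_ (Eventually.of_forall hG)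
  rw [tendsto_iff_norm_sub_tendsto_zero]
  have hS : ∀ N, ‖G N - A.S v M hv‖ = ‖A.S (w N) M (hw N)‖ := by
    intro N
    have : G N - A.S v M hv = - A.S (w N) M (hw N) := by simp [G]
    rw [this, norm_neg]
  simp_rw [hS]
  rw [Metric.tendsto_atTop]
  intro ε hε
  rw [Metric.tendsto_atTop] at h0
  obtain ⟨N, hN⟩ := h0 (ε / 2) (by linarith)
  refine ⟨N, fun n hn => ?_⟩
  rw [dist_zero_right, norm_norm]
  have hb : ∀ k, ‖w n k‖ ≤ ε / 2 := by
    intro k
    by_cases h : k < n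
    · simp [w, h]; linarith
    · have := hN k (hn.trans (not_lt.1 h))
      rw [dist_zero_right] at this
      simp [w, h]; linarith
  have : A.S (w n) M (hw n) = A.S (w n) (ε / 2) hb := by
    ext f; rfl
  rw [this]
  linarith [A.S_norm (w n) (ε / 2) hb]

end At

namespace AtR
variable {E : Type} [NormedAddCommGroup E] [NormedSpace ℂ E] [CompleteSpace E] (A : AtR E)

lemma c_ne (j : ℕ) : ((1 / 4 : ℂ) ^ j) ≠ 0 := pow_ne_zero _ (by norm_num)

lemma arg_tendsto {t : ℝ} (ht : 0 < t) : Tendsto (fun k : ℕ => (k : ℝ) * |t|) atTop atTop := by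
  rw [abs_of_pos ht]
  exact tendsto_natCast_atTop_atTop.atTop_mul_const ht

lemma pw_d_tendsto (j : ℕ) (t : ℝ) (ht : 0 ≤ t) :
    Tendsto (fun k : ℕ => ((pw (j + 1) (k * |t|) : ℝ) : ℂ) • A.d k) atTop (𝓝 0) := by
  rw [tendsto_zero_iff_norm_tendsto_zero]
  have e : ∀ k : ℕ, ‖((pw (j + 1) (k * |t|) : ℝ) : ℂ) • A.d k‖ = pw (j + 1) (k * |t|) := by
    intro k
    rw [norm_smul, A.norm_d, mul_one, Complex.norm_real, Real.norm_eq_abs,
      abs_of_nonneg (pw_nonneg _ (by positivity))]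
  simp_rw [e]
  rcases ht.eq_or_lt with h | h
  · subst h
    simp [pw_succ_zero]
  · exact (pw_tendsto (j + 1)).comp (arg_tendsto h)

lemma V_err (j : ℕ) {t : ℝ} (ht : 0 < t) :
    Tendsto (fun k => A.V (j + 1) t (A.d k) - ((1 / 4 : ℂ) ^ (j + 1)) • A.r k) atTop (𝓝 0) := by
  have h1 := A.pw_d_tendsto j t ht.le
  have h2 : Tendsto (fun k : ℕ => ((1 - tl (j + 1) (k * |t|) : ℝ) : ℂ) • A.r k) atTop (𝓝 0) := by
    rw [tendsto_zero_iff_norm_tendsto_zero]
    have h3 : Tendsto (fun k : ℕ => (1 - tl (j + 1) (k * |t|)) * 2) atTop (𝓝 0) := by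
      have := ((tendsto_const_nhds (x := (1:ℝ))).sub
        ((tl_tendsto (j + 1)).comp (arg_tendsto ht))).mul_const 2
      simpa using this
    refine squeeze_zero (fun _ => norm_nonneg _) (fun k => ?_) h3
    have h0 : 0 ≤ 1 - tl (j + 1) (k * |t|) := by
      linarith [tl_le_one (j + 1) (s := (k : ℝ) * |t|) (by positivity)]
    rw [norm_smul, Complex.norm_real, Real.norm_eq_abs, abs_of_nonneg h0]
    exact mul_le_mul_of_nonneg_left (A.norm_r k) h0
  have h3 := (h1.sub h2).const_smul ((1 / 4 : ℂ) ^ (j + 1))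
  rw [sub_zero, smul_zero] at h3
  refine h3.congr fun k => ?_
  rw [V_d]
  unfold u
  rw [← smul_sub]
  congr 1
  push_cast
  rw [sub_smul, one_smul]
  abel

/-- weak compactness of the Dyson-Phillips terms -/
lemma V_wc {H : Type} [NormedAddCommGroup H] [InnerProductSpace ℂ H] [CompleteSpace H]
    (J : H →L[ℂ] E) (h : ℕ → H) (M : ℝ) (hM : ∀ k, ‖h k‖ ≤ M) (hJ : ∀ k, J (h k) = A.r k)
    (j : ℕ) (t : ℝ) (ht : 0 ≤ t) : WeaklyCompact (A.V (j + 1) t) := by
  have hM0 : 0 ≤ M := (norm_nonneg _).trans (hM 0)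
  have ha : ∀ k : ℕ, ‖(1 / 4 : ℂ) ^ (j + 1) • (((pw (j + 1) (k * |t|) : ℝ) : ℂ) • A.d k)‖ ≤ 1 := by
    intro k
    rw [norm_smul, norm_smul, A.norm_d, mul_one, Complex.norm_real, Real.norm_eq_abs,
      abs_of_nonneg (pw_nonneg _ (by positivity)), norm_pow]
    have h3 : ‖(1 / 4 : ℂ)‖ ^ (j + 1) ≤ 1 := pow_le_one₀ (norm_nonneg _) (by norm_num)
    exact mul_le_one₀ h3 (pw_nonneg _ (by positivity)) (pw_le_one _ (by positivity))
  have hb : ∀ k : ℕ, ‖(1 / 4 : ℂ) ^ (j + 1) • (((tl (j + 1) (k * |t|) : ℝ) : ℂ) • h k)‖ ≤ M := by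
    intro k
    rw [norm_smul, norm_smul, Complex.norm_real, Real.norm_eq_abs,
      abs_of_nonneg (tl_nonneg _ (by positivity)), norm_pow, ← mul_assoc]
    have h3 : ‖(1 / 4 : ℂ)‖ ^ (j + 1) ≤ 1 := pow_le_one₀ (norm_nonneg _) (by norm_num)
    have h4 := mul_le_one₀ h3 (tl_nonneg (j + 1) (s := (k : ℝ) * |t|) (by positivity))
      (tl_le_one _ (by positivity))
    calc _ ≤ 1 * M := mul_le_mul h4 (hM k) (norm_nonneg _) zero_le_one
      _ = M := one_mul M
  have e : A.V (j + 1) t = A.S _ 1 ha + J.comp (A.S _ M hb) := by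
    ext f
    rw [V_succ, add_apply, ContinuousLinearMap.comp_apply, A.S_apply, A.S_apply,
      J.map_tsum (A.summable_term hb f)]
    have s1 := A.summable_term ha f
    have s2 : Summable fun k => J (A.ev k f • ((1 / 4 : ℂ) ^ (j + 1) •
        (((tl (j + 1) (k * |t|) : ℝ) : ℂ) • h k))) := (A.summable_term hb f).mapL J
    rw [← s1.tsum_add s2]
    refine tsum_congr fun k => ?_
    rw [map_smul, map_smul, map_smul, hJ]
    unfold u
    rw [smul_add, smul_add]
  rw [e]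
  refine wc_add (wc_of_compact (A.S_compact _ _ _ ?_)) (wc_factor _ _)
  have := (A.pw_d_tendsto j t ht).const_smul ((1 / 4 : ℂ) ^ (j + 1))
  rwa [smul_zero] at this

/-- noncompactness -/
lemma V_nc {c : ℝ} (hc : 0 < c) (hsep : ∀ k l, k ≠ l → c ≤ ‖A.r k - A.r l‖)
    (j : ℕ) {t : ℝ} (ht : 0 < t) : ¬ IsCompactOperator (A.V (j + 1) t) := by
  intro hK
  have h1 := hK.isCompact_closure_image_closedBall 1
  have hmem : ∀ k, A.V (j + 1) t (A.d k) ∈ closure (A.V (j + 1) t '' closedBall 0 1) := by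
    intro k
    exact subset_closure ⟨A.d k, by simp [A.norm_d], rfl⟩
  obtain ⟨a, _, φ, hφ, hlim⟩ := h1.tendsto_subseq hmem
  have h2 : Tendsto (fun n => ((1 / 4 : ℂ) ^ (j + 1)) • A.r (φ n)) atTop (𝓝 a) := by
    have h3 := hlim.sub ((A.V_err j ht).comp hφ.tendsto_atTop)
    rw [sub_zero] at h3
    refine h3.congr fun n => ?_
    simp only [Function.comp]
    abel
  have h4 : Tendsto (fun n => A.r (φ n)) atTop (𝓝 (((1 / 4 : ℂ) ^ (j + 1))⁻¹ • a)) := by
    have h5 := h2.const_smul (((1 / 4 : ℂ) ^ (j + 1))⁻¹)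
    refine h5.congr fun n => ?_
    rw [smul_smul, inv_mul_cancel₀ (c_ne _), one_smul]
  have h6 : Tendsto (fun n => A.r (φ (n + 1)) - A.r (φ n)) atTop (𝓝 0) := by
    have := (h4.comp (tendsto_add_atTop_nat 1)).sub h4
    rwa [sub_self] at this
  have h7 := h6.norm
  rw [norm_zero] at h7
  have h8 : c ≤ 0 := ge_of_tendsto' h7 fun n =>
    hsep _ _ (hφ.injective.ne (Nat.succ_ne_self n))
  linarith

lemma V_at_zero (j : ℕ) : A.V (j + 1) 0 = 0 := by
  ext f
  rw [V_succ]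
  simp [u, pw_succ_zero, tl_succ_zero]

/-- norm discontinuity at zero -/
lemma V_disc {c : ℝ} (hc : 0 < c) (hsep : ∀ k l, k ≠ l → c ≤ ‖A.r k - A.r l‖)
    (j : ℕ) : ¬ ContinuousWithinAt (fun t => A.V (j + 1) t) (Ici 0) 0 := by
  intro hcont
  set b : ℝ := ‖(1 / 4 : ℂ) ^ (j + 1)‖ * c with hb
  have hbpos : 0 < b := mul_pos (norm_pos_iff.2 (c_ne _)) hc
  rw [Metric.continuousWithinAt_iff] at hcont
  obtain ⟨δ, hδ, h⟩ := hcont (b / 4) (by linarith)
  have ht : 0 < δ / 2 := by linarith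
  have h1 := h (x := δ / 2) ht.le (by
    rw [Real.dist_eq, sub_zero, abs_of_pos ht]; linarith)
  rw [V_at_zero, dist_zero_right] at h1
  have herr := A.V_err j ht
  have herr2 := herr.sub (herr.comp (tendsto_add_atTop_nat 1))
  rw [sub_zero] at herr2
  have hn := herr2.norm
  rw [norm_zero] at hn
  have hbd : ∀ k : ℕ, b - b / 2 ≤ ‖(A.V (j + 1) (δ / 2) (A.d k) -
      ((1 / 4 : ℂ) ^ (j + 1)) • A.r k) - (A.V (j + 1) (δ / 2) (A.d (k + 1)) -
      ((1 / 4 : ℂ) ^ (j + 1)) • A.r (k + 1))‖ := by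
    intro k
    have e : (A.V (j + 1) (δ / 2) (A.d k) - ((1 / 4 : ℂ) ^ (j + 1)) • A.r k) -
      (A.V (j + 1) (δ / 2) (A.d (k + 1)) - ((1 / 4 : ℂ) ^ (j + 1)) • A.r (k + 1)) =
      A.V (j + 1) (δ / 2) (A.d k - A.d (k + 1)) -
        ((1 / 4 : ℂ) ^ (j + 1)) • (A.r k - A.r (k + 1)) := by
      rw [map_sub, smul_sub]; abel
    rw [e, norm_sub_rev]
    have h2 := norm_sub_norm_le (((1 / 4 : ℂ) ^ (j + 1)) • (A.r k - A.r (k + 1)))
      (A.V (j + 1) (δ / 2) (A.d k - A.d (k + 1)))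
    have h3 : b ≤ ‖((1 / 4 : ℂ) ^ (j + 1)) • (A.r k - A.r (k + 1))‖ := by
      rw [norm_smul]
      exact mul_le_mul_of_nonneg_left (hsep _ _ (Nat.succ_ne_self k).symm) (norm_nonneg _)
    have h4 : ‖A.V (j + 1) (δ / 2) (A.d k - A.d (k + 1))‖ ≤ b / 2 := by
      have h5 := (A.V (j + 1) (δ / 2)).le_opNorm (A.d k - A.d (k + 1))
      have h6 : ‖A.d k - A.d (k + 1)‖ ≤ 2 := by
        have := norm_sub_le (A.d k) (A.d (k + 1))
        rw [A.norm_d, A.norm_d] at this
        linarith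
      have h7 : ‖A.V (j + 1) (δ / 2)‖ * ‖A.d k - A.d (k + 1)‖ ≤ b / 4 * 2 :=
        mul_le_mul h1.le h6 (norm_nonneg _) (by linarith)
      linarith
    linarith
  have := ge_of_tendsto' hn hbd
  linarith

/-! ### positivity -/

structure Cone (N : E → Prop) : Prop where
  zero : N 0
  add : ∀ f g, N f → N g → N (f + g)
  smul : ∀ (c : ℝ) f, 0 ≤ c → N f → N ((c : ℂ) • f)
  closed : IsClosed {f | N f}
  ev : ∀ k f, N f → ∃ c : ℝ, 0 ≤ c ∧ A.ev k f = (c : ℂ)
  d : ∀ k, N (A.d k)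
  r : ∀ k, N (A.r k)
  P : ∀ f, N f → N (A.P f)

variable {A}
lemma Cone.tsum {N : E → Prop} (hN : A.Cone N) (v : ℕ → E) (hv : ∀ k, N (v k)) :
    N (∑' k, v k) := by
  by_cases hs : Summable v
  · have h1 := hs.hasSum
    refine hN.closed.mem_of_tendsto h1 (Eventually.of_forall fun s => ?_)
    exact Finset.sum_induction v N hN.add hN.zero fun k _ => hv k
  · rw [tsum_eq_zero_of_not_summable hs]; exact hN.zero

lemma Cone.U {N : E → Prop} (hN : A.Cone N) (t : ℝ) (f : E) (hf : N f) : N (A.U t f) := by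
  rw [A.U_apply]
  refine hN.add _ _ (hN.P f hf) (hN.tsum _ fun k => ?_)
  obtain ⟨c, hc, he⟩ := hN.ev k f hf
  rw [he]
  exact hN.smul c _ hc (hN.smul _ _ (Real.exp_pos _).le (hN.d k))

lemma Cone.V {N : E → Prop} (hN : A.Cone N) (j : ℕ) (t : ℝ) (f : E) (hf : N f) :
    N (A.V j t f) := by
  cases j with
  | zero => exact hN.U t f hf
  | succ j =>
    rw [V_succ]
    refine hN.tsum _ fun k => ?_
    obtain ⟨c, hc, he⟩ := hN.ev k f hf
    rw [he]
    refine hN.smul c _ hc ?_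
    unfold u
    have e2 : (1 / 4 : ℂ) ^ (j + 1) = (((1 / 4 : ℝ) ^ (j + 1) : ℝ) : ℂ) := by push_cast; ring
    rw [e2]
    exact hN.smul _ _ (by positivity) (hN.add _ _ (hN.smul _ _ (pw_nonneg _ (by positivity))
      (hN.d k)) (hN.smul _ _ (tl_nonneg _ (by positivity)) (hN.r k)))

lemma Cone.B {N : E → Prop} (hN : A.Cone N) (φ : A.T.domain) (hf : N (φ : E)) : N (A.B φ) := by
  rw [B_apply, A.S_apply, ← tsum_neg]
  refine hN.tsum _ fun k => ?_
  obtain ⟨c, hc, he⟩ := hN.ev k _ hf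
  rw [(A.T_mem φ).2 k, he, ← neg_smul]
  have e : -(-(k : ℂ) * (c : ℂ)) = (((k : ℝ) * c : ℝ) : ℂ) := by push_cast; ring
  rw [e]
  refine hN.smul _ _ (by positivity) ?_
  unfold q
  have e2 : (1 / 4 : ℂ) = ((1 / 4 : ℝ) : ℂ) := by norm_num
  rw [e2]
  exact hN.smul _ _ (by norm_num) (hN.add _ _ (hN.d k) (hN.r k))

end AtR
end Q142DP
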