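import Mathlib
set_option autoImplicit false
open Filter Topology Set
namespace Q142DP

/-- Poisson weights `e^{-s} s^j / j!`. -/
noncomputable def pw (j : ℕ) (s : ℝ) : ℝ := Real.exp (-s) * (s ^ j / j.factorial)

/-- Poisson tail `1 - ∑_{m<j} e^{-s} s^m / m!`. -/
noncomputable def tl (j : ℕ) (s : ℝ) : ℝ := 1 - ∑ m ∈ Finset.range j, pw m s

lemma pw_nonneg (j : ℕ) {s : ℝ} (hs : 0 ≤ s) : 0 ≤ pw j s := by
  unfold pw; positivity

lemma sum_pw_le (j : ℕ) {s : ℝ} (hs : 0 ≤ s) : ∑ m ∈ Finset.range j, pw m s ≤ 1 := by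
  have h := Real.sum_le_exp_of_nonneg hs j
  unfold pw
  rw [← Finset.mul_sum]
  calc Real.exp (-s) * ∑ m ∈ Finset.range j, s ^ m / (m.factorial : ℝ)
      ≤ Real.exp (-s) * Real.exp s := mul_le_mul_of_nonneg_left h (Real.exp_pos _).le
    _ = 1 := by rw [← Real.exp_add]; simp

lemma pw_le_one (j : ℕ) {s : ℝ} (hs : 0 ≤ s) : pw j s ≤ 1 := by
  refine le_trans ?_ (sum_pw_le (j + 1) hs)
  exact Finset.single_le_sum (f := fun m => pw m s) (fun m _ => pw_nonneg m hs)
    (Finset.mem_range.2 (Nat.lt_succ_self j))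

lemma tl_nonneg (j : ℕ) {s : ℝ} (hs : 0 ≤ s) : 0 ≤ tl j s := by
  unfold tl; linarith [sum_pw_le j hs]

lemma tl_le_one (j : ℕ) {s : ℝ} (hs : 0 ≤ s) : tl j s ≤ 1 := by
  unfold tl
  have : 0 ≤ ∑ m ∈ Finset.range j, pw m s := Finset.sum_nonneg fun m _ => pw_nonneg m hs
  linarith

lemma pw_succ_zero (j : ℕ) : pw (j + 1) 0 = 0 := by simp [pw]

lemma pw_zero_zero : pw 0 0 = 1 := by simp [pw]

lemma tl_succ_zero (j : ℕ) : tl (j + 1) 0 = 0 := by
  unfold tl
  rw [Finset.sum_range_succ']
  simp [pw_succ_zero, pw_zero_zero]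

lemma pw_tendsto (j : ℕ) : Tendsto (pw j) atTop (𝓝 0) := by
  have h := (Real.tendsto_pow_mul_exp_neg_atTop_nhds_zero j).div_const (j.factorial : ℝ)
  simp only [zero_div] at h
  refine h.congr fun s => ?_
  unfold pw; ring

lemma tl_tendsto (j : ℕ) : Tendsto (tl j) atTop (𝓝 1) := by
  have h : Tendsto (fun s => ∑ m ∈ Finset.range j, pw m s) atTop (𝓝 (∑ m ∈ Finset.range j, (0:ℝ))) :=
    tendsto_finsetSum _ fun m _ => pw_tendsto m
  have h2 := (tendsto_const_nhds (x := (1:ℝ))).sub h
  simp only [Finset.sum_const_zero, sub_zero] at h2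
  exact h2

lemma pw_cont (j : ℕ) : Continuous (pw j) := by
  unfold pw; fun_prop

lemma tl_cont (j : ℕ) : Continuous (tl j) := by
  unfold tl
  exact continuous_const.sub (continuous_finsetSum _ fun m _ => pw_cont m)

lemma int_pw (j : ℕ) (k t : ℝ) :
    ∫ s in (0:ℝ)..t, k * Real.exp (-(k * s)) * pw j (k * (t - s)) = pw (j + 1) (k * t) := by
  have hd : ∀ s ∈ uIcc (0:ℝ) t, HasDerivAt
      (fun s : ℝ => -(Real.exp (-(k * t)) * ((k * (t - s)) ^ (j + 1) / (j + 1).factorial)))
      (k * Real.exp (-(k * s)) * pw j (k * (t - s))) s := by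
    intro s _
    have h1 : HasDerivAt (fun s : ℝ => k * (t - s)) (-k) s := by
      simpa using ((hasDerivAt_id s).const_sub t).const_mul k
    have h2 := ((((h1.pow (j + 1)).div_const ((j + 1).factorial : ℝ)).const_mul
      (Real.exp (-(k * t)))).neg)
    refine h2.congr_deriv ?_
    have he : Real.exp (-(k * s)) * Real.exp (-(k * (t - s))) = Real.exp (-(k * t)) := by
      rw [← Real.exp_add]; ring_nf
    have hf : ((j + 1).factorial : ℝ) = (j + 1) * j.factorial := by
      rw [Nat.factorial_succ]; push_cast; ring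
    have hf0 : (j.factorial : ℝ) ≠ 0 := by positivity
    have hj : ((j : ℝ) + 1) ≠ 0 := by positivity
    unfold pw
    rw [hf, ← he]
    push_cast
    field_simp
  rw [intervalIntegral.integral_eq_sub_of_hasDerivAt hd]
  · unfold pw
    simp
  · apply Continuous.intervalIntegrable
    have := pw_cont j
    fun_prop

lemma int_exp (k t : ℝ) :
    ∫ s in (0:ℝ)..t, k * Real.exp (-(k * s)) = 1 - Real.exp (-(k * t)) := by
  have hd : ∀ s ∈ uIcc (0:ℝ) t, HasDerivAt (fun s : ℝ => -Real.exp (-(k * s)))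
      (k * Real.exp (-(k * s))) s := by
    intro s _
    have h1 : HasDerivAt (fun s : ℝ => -(k * s)) (-k) s := by
      have := ((hasDerivAt_id s).const_mul k).neg
      simp only [mul_one] at this
      exact this
    refine h1.exp.neg.congr_deriv ?_
    ring
  rw [intervalIntegral.integral_eq_sub_of_hasDerivAt hd]
  · simp; ring
  · apply Continuous.intervalIntegrable
    fun_prop

lemma int_tl (j : ℕ) (k t : ℝ) :
    ∫ s in (0:ℝ)..t, k * Real.exp (-(k * s)) * tl j (k * (t - s)) = tl (j + 1) (k * t) := by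
  have e : (fun s : ℝ => k * Real.exp (-(k * s)) * tl j (k * (t - s))) = fun s =>
      k * Real.exp (-(k * s)) - ∑ m ∈ Finset.range j, k * Real.exp (-(k * s)) * pw m (k * (t - s)) := by
    funext s
    unfold tl
    rw [mul_sub, mul_one, Finset.mul_sum]
  rw [e, intervalIntegral.integral_sub, intervalIntegral.integral_finsetSum, int_exp]
  · simp_rw [int_pw]
    unfold tl
    rw [Finset.sum_range_succ']
    have : pw 0 (k * t) = Real.exp (-(k * t)) := by simp [pw]
    rw [this]; ring
  · intro m _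
    apply Continuous.intervalIntegrable
    have := pw_cont m
    fun_prop
  · apply Continuous.intervalIntegrable
    fun_prop
  · apply Continuous.intervalIntegrable
    apply continuous_finsetSum
    intro m _
    have := pw_cont m
    fun_prop

end Q142DP
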