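import Pool.Agent.Q142.DP.Conc
set_option autoImplicit false
set_option linter.unusedSectionVars false
open Filter Topology Set MeasureTheory Metric
open scoped ENNReal NNReal
namespace Q142DP

/-- `1 + cos(2π(k+1)x)` -/
noncomputable def pr (k : ℕ) (x : ℝ) : ℝ := 1 + Real.cos (2 * Real.pi * ((k + 1 : ℕ) : ℤ) * x)

lemma pr_nonneg (k : ℕ) (x : ℝ) : 0 ≤ pr k x := by
  unfold pr; linarith [Real.neg_one_le_cos (2 * Real.pi * ((k + 1 : ℕ) : ℤ) * x)]

lemma pr_le (k : ℕ) (x : ℝ) : pr k x ≤ 2 := by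
  unfold pr; linarith [Real.cos_le_one (2 * Real.pi * ((k + 1 : ℕ) : ℤ) * x)]

lemma pr_cont (k : ℕ) : Continuous (pr k) := by unfold pr; fun_prop

/-- the profile as a function on the measure space -/
noncomputable def Fk (k : ℕ) : ℕ ⊕ ℝ → ℂ := Sum.elim (fun _ => 0) (fun x => ((pr k x : ℝ) : ℂ))

lemma Fk_meas (k : ℕ) : Measurable (Fk k) := by
  refine measurable_fun_sum ?_ ?_
  · exact measurable_const
  · exact (Complex.continuous_ofReal.comp (pr_cont k)).measurable

lemma Fk_bound (k : ℕ) (x : ℕ ⊕ ℝ) : ‖Fk k x‖ ≤ 2 := by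
  rcases x with n | x
  · simp [Fk]
  · simp only [Fk, Sum.elim_inr, Complex.norm_real, Real.norm_eq_abs]
    rw [abs_of_nonneg (pr_nonneg k x)]
    exact pr_le k x

lemma Fk_ind (k : ℕ) : Cs.indicator (Fk k) = Fk k := by
  ext x
  rcases x with n | x
  · simp [Fk, Cs]
  · simp [Cs]

lemma Fk_memLp (k : ℕ) (p : ℝ≥0∞) : MemLp (Fk k) p nu := by
  rw [← Fk_ind k, memLp_indicator_iff_restrict meas_Cs]
  have : IsFiniteMeasure (nu.restrict Cs) := ⟨by
    rw [Measure.restrict_apply_univ, nu_Cs]; exact ENNReal.one_lt_top⟩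
  exact MemLp.of_bound (Fk_meas k).aestronglyMeasurable 2 (Eventually.of_forall (Fk_bound k))

noncomputable def one2 : E2 := indicatorConstLp 2 meas_Cs nu_Cs_ne (1 : ℂ)

noncomputable def hk (k : ℕ) : E2 := (Fk_memLp k 2).toLp (Fk k)

lemma norm_hk (k : ℕ) : ‖hk k‖ ≤ 2 * ‖one2‖ := by
  refine Lp.norm_le_mul_norm_of_ae_le_mul ?_
  filter_upwards [(Fk_memLp k 2).coeFn_toLp, indicatorConstLp_coeFn (p := 2) (hs := meas_Cs)
    (hμs := nu_Cs_ne) (c := (1:ℂ))] with x hx1 hx2
  unfold hk one2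
  rw [hx1, hx2]
  by_cases hx : x ∈ Cs
  · simpa [hx] using Fk_bound k x
  · rw [← Fk_ind k]; simp [hx]

/-- multiplication by the indicator of the nonatomic part, `L² → L¹` -/
noncomputable def J : E2 →L[ℂ] E1 := (ContinuousLinearMap.mul ℂ ℂ).holderL nu 2 2 1 one2

noncomputable def rk (k : ℕ) : E1 := J (hk k)

lemma rk_ae (k : ℕ) : rk k =ᵐ[nu] Fk k := by
  have h := (ContinuousLinearMap.mul ℂ ℂ).coeFn_holder (r := 1) one2 (hk k)
  have h2 : rk k = (ContinuousLinearMap.mul ℂ ℂ).holder 1 one2 (hk k) := rfl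
  rw [h2]
  filter_upwards [h, (Fk_memLp k 2).coeFn_toLp, indicatorConstLp_coeFn (p := 2) (hs := meas_Cs)
    (hμs := nu_Cs_ne) (c := (1:ℂ))] with x hx0 hx1 hx2
  rw [hx0]
  unfold hk one2
  rw [hx1, hx2]
  by_cases hx : x ∈ Cs
  · simp [hx]
  · rw [← Fk_ind k]; simp [hx]

lemma rk_inl (k l : ℕ) : rk k (Sum.inl l) = 0 := (ae_nu.1 (rk_ae k)).1 l

lemma rk_inr (k : ℕ) : ∀ᵐ x ∂((volume : Measure ℝ).restrict (Ioc 0 1)),
    rk k (Sum.inr x) = ((pr k x : ℝ) : ℂ) := (ae_nu.1 (rk_ae k)).2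

lemma norm_rk (k : ℕ) : ‖rk k‖ ≤ 2 := by
  have h1 : ‖rk k‖ ≤ 2 * ‖(indicatorConstLp 1 meas_Cs nu_Cs_ne (1 : ℂ) : E1)‖ := by
    refine Lp.norm_le_mul_norm_of_ae_le_mul ?_
    filter_upwards [rk_ae k, indicatorConstLp_coeFn (p := 1) (hs := meas_Cs)
      (hμs := nu_Cs_ne) (c := (1:ℂ))] with x hx1 hx2
    rw [hx1, hx2]
    by_cases hx : x ∈ Cs
    · simpa [hx] using Fk_bound k x
    · rw [← Fk_ind k]; simp [hx]
  rw [norm_indicatorConstLp one_ne_zero ENNReal.one_ne_top] at h1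
  simpa [measureReal_def, nu_Cs] using h1

/-! ### separation -/

lemma int_cos (N : ℤ) (hN : N ≠ 0) : ∫ x in (0:ℝ)..1, Real.cos (2 * Real.pi * N * x) = 0 := by
  have hc : (2 * Real.pi * (N : ℝ)) ≠ 0 := by
    have : (N : ℝ) ≠ 0 := Int.cast_ne_zero.2 hN
    positivity
  rw [intervalIntegral.integral_comp_mul_left (fun y => Real.cos y) hc, integral_cos]
  have : Real.sin (2 * Real.pi * N * 1) = 0 := by
    have := Real.sin_int_mul_pi (2 * N)
    rw [← this]; push_cast; ring_nf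
  rw [this]; simp

lemma int_sq (m n : ℤ) (hm : 0 < m) (hn : 0 < n) (hmn : m ≠ n) :
    ∫ x in (0:ℝ)..1, (Real.cos (2 * Real.pi * m * x) - Real.cos (2 * Real.pi * n * x)) ^ 2 = 1 := by
  have e : ∀ x : ℝ, (Real.cos (2 * Real.pi * m * x) - Real.cos (2 * Real.pi * n * x)) ^ 2 =
      1 + (1 / 2) * Real.cos (2 * Real.pi * (2 * m : ℤ) * x) +
        (1 / 2) * Real.cos (2 * Real.pi * (2 * n : ℤ) * x) -
        Real.cos (2 * Real.pi * (m - n : ℤ) * x) - Real.cos (2 * Real.pi * (m + n : ℤ) * x) := by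
    intro x
    have h1 : Real.cos (2 * Real.pi * (2 * m : ℤ) * x) =
        2 * Real.cos (2 * Real.pi * m * x) ^ 2 - 1 := by
      rw [← Real.cos_two_mul]; push_cast; ring_nf
    have h2 : Real.cos (2 * Real.pi * (2 * n : ℤ) * x) =
        2 * Real.cos (2 * Real.pi * n * x) ^ 2 - 1 := by
      rw [← Real.cos_two_mul]; push_cast; ring_nf
    have h3 : Real.cos (2 * Real.pi * (m - n : ℤ) * x) =
        Real.cos (2 * Real.pi * m * x) * Real.cos (2 * Real.pi * n * x) +
        Real.sin (2 * Real.pi * m * x) * Real.sin (2 * Real.pi * n * x) := by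
      rw [← Real.cos_sub]; push_cast; ring_nf
    have h4 : Real.cos (2 * Real.pi * (m + n : ℤ) * x) =
        Real.cos (2 * Real.pi * m * x) * Real.cos (2 * Real.pi * n * x) -
        Real.sin (2 * Real.pi * m * x) * Real.sin (2 * Real.pi * n * x) := by
      rw [← Real.cos_add]; push_cast; ring_nf
    rw [h1, h2, h3, h4]; ring
  simp_rw [e]
  have c : ∀ N : ℤ, IntervalIntegrable (fun x : ℝ => Real.cos (2 * Real.pi * N * x)) volume 0 1 :=
    fun N => (by fun_prop : Continuous fun x : ℝ => Real.cos (2 * Real.pi * N * x)).intervalIntegrable _ _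
  have i1 : IntervalIntegrable (fun _ : ℝ => (1:ℝ)) volume 0 1 := intervalIntegrable_const
  rw [intervalIntegral.integral_sub (((i1.add ((c _).const_mul _)).add ((c _).const_mul _)).sub
      (c _)) (c _),
    intervalIntegral.integral_sub ((i1.add ((c _).const_mul _)).add ((c _).const_mul _)) (c _),
    intervalIntegral.integral_add (i1.add ((c _).const_mul _)) ((c _).const_mul _),
    intervalIntegral.integral_add i1 ((c _).const_mul _),
    intervalIntegral.integral_const_mul, intervalIntegral.integral_const_mul,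
    int_cos _ (by omega), int_cos _ (by omega), int_cos _ (by omega), int_cos _ (by omega)]
  simp

lemma sep (k l : ℕ) (hkl : k ≠ l) : 1 / 2 ≤ ‖rk k - rk l‖ := by
  have h1 := (norm_formula (rk k - rk l)).2
  have h2 : ∫ x in Ioc (0:ℝ) 1, ‖(rk k - rk l : E1) (Sum.inr x)‖ =
      ∫ x in Ioc (0:ℝ) 1, |pr k x - pr l x| := by
    refine integral_congr_ae ?_
    filter_upwards [(ae_nu.1 (Lp.coeFn_sub (rk k) (rk l))).2, rk_inr k, rk_inr l] with x hx h3 h4
    rw [hx, Pi.sub_apply, h3, h4, ← Complex.ofReal_sub, Complex.norm_real, Real.norm_eq_abs]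
  have h3 : ∫ x in Ioc (0:ℝ) 1, (1 / 2) * (Real.cos (2 * Real.pi * ((k + 1 : ℕ) : ℤ) * x) -
      Real.cos (2 * Real.pi * ((l + 1 : ℕ) : ℤ) * x)) ^ 2 ≤ ∫ x in Ioc (0:ℝ) 1, |pr k x - pr l x| := by
    refine integral_mono_ae ?_ ?_ (Eventually.of_forall fun x => ?_)
    · rw [← IntegrableOn, ← intervalIntegrable_iff_integrableOn_Ioc_of_le zero_le_one]
      apply Continuous.intervalIntegrable
      fun_prop
    · rw [← IntegrableOn, ← intervalIntegrable_iff_integrableOn_Ioc_of_le zero_le_one]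
      apply Continuous.intervalIntegrable
      exact ((pr_cont k).sub (pr_cont l)).abs
    · simp only [pr]
      set a := Real.cos (2 * Real.pi * ((k + 1 : ℕ) : ℤ) * x)
      set b := Real.cos (2 * Real.pi * ((l + 1 : ℕ) : ℤ) * x)
      have ha : |a| ≤ 1 := Real.abs_cos_le_one _
      have hb : |b| ≤ 1 := Real.abs_cos_le_one _
      have hab : |a - b| ≤ 2 := by
        have := abs_sub a b
        linarith
      have : (a - b) ^ 2 = |a - b| * |a - b| := by rw [← sq, sq_abs]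
      have e : 1 + a - (1 + b) = a - b := by ring
      rw [e, this]
      nlinarith [abs_nonneg (a - b)]
  have h4 : ∫ x in Ioc (0:ℝ) 1, (1 / 2) * (Real.cos (2 * Real.pi * ((k + 1 : ℕ) : ℤ) * x) -
      Real.cos (2 * Real.pi * ((l + 1 : ℕ) : ℤ) * x)) ^ 2 = 1 / 2 := by
    rw [← intervalIntegral.integral_of_le zero_le_one, intervalIntegral.integral_const_mul,
      int_sq _ _ (by positivity) (by positivity) (by
        intro h
        have : k + 1 = l + 1 := by exact_mod_cast h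
        omega)]
    norm_num
  have h5 : 0 ≤ ∑' n, ‖(rk k - rk l : E1) (Sum.inl n)‖ := tsum_nonneg fun _ => norm_nonneg _
  linarith

/-! ### the cone -/

/-- nonnegative almost everywhere -/
def Nonneg {Ω : Type} [MeasurableSpace Ω] {ν : Measure Ω} (f : Lp ℂ 1 ν) : Prop :=
  ∀ᵐ x ∂ν, 0 ≤ (f x).re ∧ (f x).im = 0

lemma closed_nonneg {Ω : Type} [MeasurableSpace Ω] {ν : Measure Ω} :
    IsClosed {f : Lp ℂ 1 ν | Nonneg f} := by
  have hg : LipschitzWith 1 (fun z : ℂ => ((‖z‖ : ℝ) : ℂ)) := by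
    refine LipschitzWith.of_dist_le_mul fun z w => ?_
    rw [NNReal.coe_one, one_mul, dist_eq_norm, dist_eq_norm, ← Complex.ofReal_sub,
      Complex.norm_real]
    exact abs_norm_sub_norm_le z w
  have g0 : (fun z : ℂ => ((‖z‖ : ℝ) : ℂ)) 0 = 0 := by simp
  have e : {f : Lp ℂ 1 ν | Nonneg f} = {f : Lp ℂ 1 ν | hg.compLp g0 f = f} := by
    ext f
    simp only [mem_ofPred_eq]
    constructor
    · intro h
      refine Lp.ext ?_
      filter_upwards [h, hg.coeFn_compLp g0 f] with x hx1 hx2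
      rw [hx2]
      simp only [Function.comp]
      obtain ⟨h1, h2⟩ := hx1
      have e : f x = (((f x).re : ℝ) : ℂ) := by
        apply Complex.ext <;> simp [h2]
      rw [e, Complex.norm_real, Real.norm_eq_abs, abs_of_nonneg h1]
    · intro h
      have h2 := hg.coeFn_compLp g0 f
      rw [h] at h2
      unfold Nonneg
      filter_upwards [h2] with x hx
      rw [hx]
      simp
  rw [e]
  exact isClosed_eq (LipschitzWith.continuous_compLp hg g0) continuous_id

/-- the concrete data -/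
noncomputable def Dat : AtR E1 where
  ev := evk
  d := dk
  ev_d := ev_dk
  summ := fun f => (norm_formula f).1
  split := split_E1
  r := rk
  ev_r := fun k l => rk_inl l k
  norm_r := norm_rk

lemma P_inr (f : E1) : ∀ᵐ x ∂((volume : Measure ℝ).restrict (Ioc 0 1)),
    (Dat.P f) (Sum.inr x) = f (Sum.inr x) := rem_inr f

lemma P_inl (f : E1) (l : ℕ) : (Dat.P f) (Sum.inl l) = 0 := rem_inl f l

lemma cone : Dat.Cone (fun f : E1 => Nonneg f) where
  zero := by
    unfold Nonneg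
    filter_upwards [Lp.coeFn_zero ℂ 1 nu] with x hx
    rw [hx]; simp
  add := by
    intro f g hf hg
    unfold Nonneg at *
    filter_upwards [hf, hg, Lp.coeFn_add f g] with x h1 h2 h3
    rw [h3, Pi.add_apply]
    exact ⟨by rw [Complex.add_re]; linarith [h1.1, h2.1], by rw [Complex.add_im, h1.2, h2.2, add_zero]⟩
  smul := by
    intro c f hc hf
    unfold Nonneg at *
    filter_upwards [hf, Lp.coeFn_smul (c : ℂ) f] with x h1 h3
    rw [h3, Pi.smul_apply, smul_eq_mul]
    exact ⟨by rw [Complex.re_ofReal_mul]; exact mul_nonneg hc h1.1, by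
      rw [Complex.im_ofReal_mul, h1.2, mul_zero]⟩
  closed := closed_nonneg
  ev := by
    intro k f hf
    obtain ⟨h1, h2⟩ := (ae_nu.1 hf).1 k
    refine ⟨(f (Sum.inl k)).re, h1, ?_⟩
    change f (Sum.inl k) = _
    apply Complex.ext <;> simp [h2]
  d := by
    intro k
    refine ae_nu.2 ⟨fun n => ?_, ?_⟩
    · change 0 ≤ (dk k (Sum.inl n)).re ∧ (dk k (Sum.inl n)).im = 0
      rw [dk_inl]
      split_ifs <;> simp
    · filter_upwards [dk_inr k] with x hx
      change 0 ≤ (dk k (Sum.inr x)).re ∧ (dk k (Sum.inr x)).im = 0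
      rw [hx]; simp
  r := by
    intro k
    refine ae_nu.2 ⟨fun n => ?_, ?_⟩
    · change 0 ≤ (rk k (Sum.inl n)).re ∧ (rk k (Sum.inl n)).im = 0
      rw [rk_inl]; simp
    · filter_upwards [rk_inr k] with x hx
      change 0 ≤ (rk k (Sum.inr x)).re ∧ (rk k (Sum.inr x)).im = 0
      rw [hx]
      exact ⟨by rw [Complex.ofReal_re]; exact pr_nonneg k x, Complex.ofReal_im _⟩
  P := by
    intro f hf
    have h := (ae_nu.1 hf).2
    refine ae_nu.2 ⟨fun n => ?_, ?_⟩
    · rw [P_inl]; simp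
    · filter_upwards [P_inr f, h] with x hx h1
      rw [hx]; exact h1

end Q142DP
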